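import Mathlib

/-!
# Passage of the critical orbit near the parabolic point, for parameters near the cusp `1/4`

With `w = z - 1/2 = x + i y` and `c = 1/4 + s^2 + i δ` the map `z ↦ z^2 + c` becomes
`x' = x + (x^2 + s^2) - y^2`, `y' = y (1 + 2 x) + δ`.
-/

namespace MPc6f924C

open Set

/-- a primitive of `1 / (x^2 + s^2)^2` -/
noncomputable def VV (s x : ℝ) : ℝ :=
  x / (2 * s ^ 2 * (x ^ 2 + s ^ 2)) + Real.arctan (x / s) / (2 * s ^ 3)

lemma VV_deriv {s : ℝ} (hs : 0 < s) (x : ℝ) : HasDerivAt (VV s) (1 / (x ^ 2 + s ^ 2) ^ 2) x := by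
  have hD : 0 < x ^ 2 + s ^ 2 := by positivity
  have h1 : HasDerivAt (fun x : ℝ => x ^ 2 + s ^ 2) (2 * x) x := by
    simpa using (hasDerivAt_pow 2 x).add_const (s ^ 2)
  have h2 : HasDerivAt (fun x : ℝ => 2 * s ^ 2 * (x ^ 2 + s ^ 2)) (2 * s ^ 2 * (2 * x)) x :=
    h1.const_mul _
  have h3 := (hasDerivAt_id x).div h2 (by positivity)
  have h4 : HasDerivAt (fun x : ℝ => x / s) (1 / s) x := by
    simpa using (hasDerivAt_id x).div_const s
  have h5 := (h4.arctan).div_const (2 * s ^ 3)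
  have h6 := h3.add h5
  have e : (1 * (2 * s ^ 2 * (x ^ 2 + s ^ 2)) - id x * (2 * s ^ 2 * (2 * x))) /
      (2 * s ^ 2 * (x ^ 2 + s ^ 2)) ^ 2 + 1 / (1 + (x / s) ^ 2) * (1 / s) / (2 * s ^ 3) =
      1 / (x ^ 2 + s ^ 2) ^ 2 := by
    simp only [id]
    have h7 : 1 + (x / s) ^ 2 = (x ^ 2 + s ^ 2) / s ^ 2 := by
      field_simp
      ring
    rw [h7]
    field_simp
    ring
  rw [e] at h6
  exact h6

lemma VV_sub {s : ℝ} (hs : 0 < s) {a b : ℝ} (hab : a < b) :
    ∃ ξ ∈ Ioo a b, VV s b - VV s a = (b - a) / (ξ ^ 2 + s ^ 2) ^ 2 := by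
  obtain ⟨ξ, h1, h2⟩ := exists_hasDerivAt_eq_slope (VV s) (fun x => 1 / (x ^ 2 + s ^ 2) ^ 2) hab
    (fun x _ => (VV_deriv hs x).continuousAt.continuousWithinAt) (fun x _ => VV_deriv hs x)
  refine ⟨ξ, h1, ?_⟩
  have h3 : 0 < b - a := by linarith
  rw [eq_div_iff h3.ne'] at h2
  rw [← h2]
  ring

lemma VV_le {s : ℝ} (hs : 0 < s) {a b : ℝ} (hab : a ≤ b) : VV s a ≤ VV s b := by
  rcases hab.eq_or_lt with h | h
  · rw [h]
  obtain ⟨ξ, -, h2⟩ := VV_sub hs h
  have : 0 ≤ (b - a) / (ξ ^ 2 + s ^ 2) ^ 2 := div_nonneg (by linarith) (by positivity)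
  linarith

/-- total variation -/
lemma VV_total {s x : ℝ} (hs : 0 < s) (hx : x ≤ 1 / 20) :
    VV s x - VV s (-1 / 2) ≤ Real.pi / (2 * s ^ 3) + 26 / s ^ 2 := by
  have h1 : VV s x ≤ VV s (1 / 20) := VV_le hs hx
  have h2 : VV s (1 / 20) ≤ Real.pi / (4 * s ^ 3) + 10 / s ^ 2 := by
    unfold VV
    have e1 : (1 / 20 : ℝ) / (2 * s ^ 2 * ((1 / 20) ^ 2 + s ^ 2)) ≤ 10 / s ^ 2 := by
      rw [div_le_div_iff₀ (by positivity) (by positivity)]
      have : 0 < s ^ 2 * s ^ 2 := by positivity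
      nlinarith
    have e2 : Real.arctan (1 / 20 / s) / (2 * s ^ 3) ≤ Real.pi / (4 * s ^ 3) := by
      have h := (Real.arctan_lt_pi_div_two (1 / 20 / s)).le
      calc Real.arctan (1 / 20 / s) / (2 * s ^ 3) ≤ (Real.pi / 2) / (2 * s ^ 3) := by gcongr
        _ = Real.pi / (4 * s ^ 3) := by
          field_simp
          ring
    linarith
  have h3 : -(Real.pi / (4 * s ^ 3) + 1 / s ^ 2) ≤ VV s (-1 / 2) := by
    unfold VV
    have e1 : -(1 / s ^ 2) ≤ (-1 / 2 : ℝ) / (2 * s ^ 2 * ((-1 / 2) ^ 2 + s ^ 2)) := by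
      rw [neg_le_iff_add_nonneg, div_add_div _ _ (by positivity) (by positivity)]
      apply div_nonneg _ (by positivity)
      have : 0 < s ^ 2 * s ^ 2 := by positivity
      nlinarith
    have e2 : -(Real.pi / (4 * s ^ 3)) ≤ Real.arctan (-1 / 2 / s) / (2 * s ^ 3) := by
      have h := (Real.neg_pi_div_two_lt_arctan (-1 / 2 / s)).le
      calc -(Real.pi / (4 * s ^ 3)) = (-(Real.pi / 2)) / (2 * s ^ 3) := by
            field_simp
            ring
        _ ≤ Real.arctan (-1 / 2 / s) / (2 * s ^ 3) := by gcongr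
    linarith
  have e3 : Real.pi / (2 * s ^ 3) = Real.pi / (4 * s ^ 3) + Real.pi / (4 * s ^ 3) := by
    field_simp
    ring
  have e4 : (26 : ℝ) / s ^ 2 = 10 / s ^ 2 + 1 / s ^ 2 + 15 / s ^ 2 := by ring
  have e5 : (0 : ℝ) < 15 / s ^ 2 := by positivity
  linarith

/-- the comparison function -/
noncomputable def MM (s x : ℝ) : ℝ :=
  (1 + 5e-4) * (VV s x - VV s (-1 / 2)) + 5e16 * (x + 1 / 2)

lemma MM_small {s x : ℝ} (hs : 0 < s) (hx0 : -1 / 2 ≤ x) (hx : x ≤ -1e-4) :
    MM s x ≤ 3.01e16 := by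
  have h1 : VV s x - VV s (-1 / 2) ≤ 1e16 * (x + 1 / 2) := by
    rcases hx0.eq_or_lt with h | h
    · rw [← h]
      norm_num
    obtain ⟨ξ, hξ, h2⟩ := VV_sub hs h
    rw [h2]
    have h3 : 1e-8 ≤ ξ ^ 2 := by
      have h30 := hξ.2
      have h31 := mul_self_le_mul_self (show (0 : ℝ) ≤ 1e-4 by norm_num)
        (show 1e-4 ≤ -ξ by linarith)
      norm_num at h31 ⊢
      linarith
    have h4 : (1e-16 : ℝ) ≤ (ξ ^ 2 + s ^ 2) ^ 2 := by
      have : (1e-8 : ℝ) ≤ ξ ^ 2 + s ^ 2 := by linarith [sq_nonneg s]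
      have h5 := mul_self_le_mul_self (by norm_num) this
      calc (1e-16 : ℝ) = 1e-8 * 1e-8 := by norm_num
        _ ≤ _ := h5
        _ = _ := by ring
    rw [div_le_iff₀ (by linarith)]
    have h5 : 0 ≤ x - -1 / 2 := by linarith
    calc x - -1 / 2 = (1e16 * (x + 1 / 2)) * 1e-16 := by norm_num; ring
      _ ≤ (1e16 * (x + 1 / 2)) * (ξ ^ 2 + s ^ 2) ^ 2 := by
        apply mul_le_mul_of_nonneg_left h4
        exact mul_nonneg (by norm_num) (by linarith)
  unfold MM
  norm_num at h1 hx ⊢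
  linarith

lemma MM_large {s x : ℝ} (hs : 0 < s) (hs1 : s ≤ 1e-8) (hx : x ≤ 1 / 20) :
    1.4 * s ^ 3 * MM s x ≤ 2.2003 := by
  have h1 := VV_total hs hx
  have h2 : s ^ 3 * (VV s x - VV s (-1 / 2)) ≤ Real.pi / 2 + 26 * s := by
    calc s ^ 3 * (VV s x - VV s (-1 / 2)) ≤ s ^ 3 * (Real.pi / (2 * s ^ 3) + 26 / s ^ 2) := by
          gcongr
      _ = Real.pi / 2 + 26 * s := by field_simp
  have hpi := Real.pi_lt_d6
  have h3 : s ^ 3 ≤ 1e-24 := by
    calc s ^ 3 ≤ (1e-8) ^ 3 := by gcongr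
      _ = 1e-24 := by norm_num
  have h4 : s ^ 3 * (x + 1 / 2) ≤ 1e-24 := by
    have : s ^ 3 * (x + 1 / 2) ≤ s ^ 3 * 1 := by
      apply mul_le_mul_of_nonneg_left _ (by positivity)
      linarith
    linarith
  unfold MM
  have e : 1.4 * s ^ 3 * ((1 + 5e-4) * (VV s x - VV s (-1 / 2)) + 5e16 * (x + 1 / 2)) =
      1.4 * ((1 + 5e-4) * (s ^ 3 * (VV s x - VV s (-1 / 2))) + 5e16 * (s ^ 3 * (x + 1 / 2))) := by
    ring
  rw [e]
  norm_num at hs1 h2 h4 ⊢
  linarith

/-- first part of the step -/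
lemma stepA {s x y : ℝ} (hs : 0 < s) (hs1 : s ≤ 1e-8) (hx0 : -1 / 2 ≤ x) (hx : x ≤ 1 / 50)
    (hy0 : 0 ≤ y) (hy : x ≤ -1e-4 ∨ y ≤ 2.2006 * (x ^ 2 + s ^ 2)) :
    (1 + 0.75 * (x + (x ^ 2 + s ^ 2) - y ^ 2)) * (1 + 2 * x) * (x ^ 2 + s ^ 2) ≤
      (1 + 0.75 * x) * ((x + (x ^ 2 + s ^ 2) - y ^ 2) ^ 2 + s ^ 2) := by
  obtain ⟨D, hD⟩ : ∃ D : ℝ, D = x ^ 2 + s ^ 2 := ⟨_, rfl⟩
  have hDpos : 0 < D := by rw [hD]; positivity
  have hs2 : s ^ 2 ≤ 1e-16 := by
    calc s ^ 2 ≤ (1e-8) ^ 2 := by gcongr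
      _ = 1e-16 := by norm_num
  rw [← hD] at hy ⊢
  have key : (1 + 0.75 * x) * ((x + D - y ^ 2) ^ 2 + s ^ 2) -
      (1 + 0.75 * (x + D - y ^ 2)) * (1 + 2 * x) * D =
      D ^ 2 * (0.25 - 0.75 * x) - 2 * (1 + 0.75 * x) * (x + D) * y ^ 2 + (1 + 0.75 * x) * y ^ 4 +
        0.75 * y ^ 2 * (1 + 2 * x) * D := by
    have : s ^ 2 = D - x ^ 2 := by rw [hD]; ring
    rw [this]
    ring
  have h1 : 0 ≤ (1 + 0.75 * x) * y ^ 4 := by
    apply mul_nonneg (by linarith) (by positivity)
  have h2 : 0 ≤ 0.75 * y ^ 2 * (1 + 2 * x) * D := by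
    apply mul_nonneg (mul_nonneg (by positivity) (by linarith)) hDpos.le
  have h3 : 2 * (1 + 0.75 * x) * (x + D) * y ^ 2 ≤ D ^ 2 * (0.25 - 0.75 * x) := by
    rcases le_or_gt (x + D) 0 with h | h
    · have h4 : 2 * (1 + 0.75 * x) * (x + D) * y ^ 2 ≤ 0 := by
        apply mul_nonpos_of_nonpos_of_nonneg _ (by positivity)
        apply mul_nonpos_of_nonneg_of_nonpos (by linarith) h
      have h5 : 0 ≤ D ^ 2 * (0.25 - 0.75 * x) := by
        apply mul_nonneg (by positivity)
        linarith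
      linarith
    · have hx1 : -1e-4 < x := by
        by_contra hcon
        push Not at hcon
        have h6 : 0 ≤ (-1e-4 - x) * (1 + x) := mul_nonneg (by linarith) (by linarith)
        norm_num at hs2 h6
        linarith
      have hy' : y ≤ 2.2006 * D := by
        rcases hy with h6 | h6
        · linarith
        · exact h6
      have hy2 : y ^ 2 ≤ 4.843 * D ^ 2 := by
        have h8 := mul_self_le_mul_self hy0 hy'
        have h9 := sq_nonneg D
        norm_num at h8 ⊢
        linarith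
      have hx2 : x ^ 2 ≤ 0.0004 := by
        have h8 := sq_le_sq' (show -(1 / 50) ≤ x by norm_num at hx1; linarith) hx
        norm_num at h8 ⊢
        linarith
      have hxD : x + D ≤ 0.02041 := by
        norm_num at hs2
        linarith
      have h7 : 2 * (1 + 0.75 * x) * (x + D) ≤ 0.0415 := by
        have : (1 + 0.75 * x) * (x + D) ≤ 1.015 * 0.02041 := by
          apply mul_le_mul (by linarith) hxD h.le (by norm_num)
        norm_num at this
        linarith
      calc 2 * (1 + 0.75 * x) * (x + D) * y ^ 2 ≤ 0.0415 * (4.843 * D ^ 2) := by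
            apply mul_le_mul h7 hy2 (by positivity) (by norm_num)
        _ ≤ D ^ 2 * 0.235 := by
            have h9 := sq_nonneg D
            norm_num
            linarith
        _ ≤ D ^ 2 * (0.25 - 0.75 * x) := by
            apply mul_le_mul_of_nonneg_left _ (sq_nonneg D)
            norm_num
            linarith
  linarith

/-- second part of the step -/
lemma stepB {s x y x' : ℝ} (hs : 0 < s) (hs1 : s ≤ 1e-8) (hx0 : -1 / 2 ≤ x) (hx : x ≤ 1 / 50)
    (hy0 : 0 ≤ y) (hya : x ≤ -1e-4 → y ≤ 1e-5) (hyb : -1e-4 < x → y ≤ 2.2006 * (x ^ 2 + s ^ 2))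
    (hx' : x' = x + (x ^ 2 + s ^ 2) - y ^ 2) :
    x + (x ^ 2 + s ^ 2) / 2 ≤ x' ∧ (1 + 0.75 * x') / (x' ^ 2 + s ^ 2) ≤ MM s x' - MM s x := by
  obtain ⟨D, hD⟩ : ∃ D : ℝ, D = x ^ 2 + s ^ 2 := ⟨_, rfl⟩
  have hDpos : 0 < D := by rw [hD]; positivity
  have hs2 : s ^ 2 ≤ 1e-16 := by
    calc s ^ 2 ≤ (1e-8) ^ 2 := by gcongr
      _ = 1e-16 := by norm_num
  have hs20 : 0 < s ^ 2 := by positivity
  rw [← hD] at hyb hx' ⊢
  obtain ⟨E, hE⟩ : ∃ E : ℝ, E = D - y ^ 2 := ⟨_, rfl⟩
  have hxE : x' = x + E := by rw [hx', hE]; ring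
  obtain ⟨D', hD'⟩ : ∃ D' : ℝ, D' = x' ^ 2 + s ^ 2 := ⟨_, rfl⟩
  have hD'pos : 0 < D' := by rw [hD']; positivity
  have hD'eq : D' = D + 2 * x * E + E ^ 2 := by
    rw [hD', hxE, hD]; ring
  rw [← hD']
  have hED : E ≤ D := by rw [hE]; linarith [sq_nonneg y]
  have hMC : ∀ h : 0 < E, 5e16 * E ≤ MM s x' - MM s x := by
    intro h
    have h1 := VV_le hs (show x ≤ x' by linarith)
    unfold MM
    rw [hxE] at h1 ⊢
    linarith
  rcases le_or_gt x (-1e-4) with hc | hc
  · -- left part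
    have hy := hya hc
    have hy2 : y ^ 2 ≤ 1e-10 := by
      calc y ^ 2 ≤ (1e-5) ^ 2 := by gcongr
        _ = 1e-10 := by norm_num
    have hx2 : 1e-8 ≤ x ^ 2 := by
      have h31 := mul_self_le_mul_self (show (0 : ℝ) ≤ 1e-4 by norm_num)
        (show 1e-4 ≤ -x by linarith)
      norm_num at h31 ⊢
      linarith
    have hE1 : 0.99 * x ^ 2 ≤ E := by
      rw [hE, hD]
      norm_num at hy2 hx2 ⊢
      linarith
    have hEpos : 0 < E := by
      norm_num at hE1 hx2
      linarith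
    refine ⟨?_, ?_⟩
    · rw [hxE]
      have : D / 2 ≤ E := by
        rw [hE] at hE1 ⊢
        rw [hD] at hE1 ⊢
        norm_num at hy2 hx2 hs2 ⊢
        linarith
      linarith
    · have hx'0 : x' ≤ 0.49 * x := by
        rw [hxE]
        have : E ≤ x ^ 2 + s ^ 2 := by rw [← hD]; exact hED
        have h3 : x * (1 / 2 + x) ≤ 0 := by
          apply mul_nonpos_of_nonpos_of_nonneg
          · norm_num at hc; linarith
          · linarith
        norm_num at hs2 hc ⊢
        linarith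
      have hx'2 : 0.24 * x ^ 2 ≤ D' := by
        rw [hD']
        have h3 : (0.49 * x) ^ 2 ≤ x' ^ 2 := by
          have h31 : 0 ≤ -(0.49 * x) := by norm_num at hc ⊢; linarith
          have h32 : -(0.49 * x) ≤ -x' := by linarith
          have h33 := mul_self_le_mul_self h31 h32
          linarith
        have h34 : (0.49 * x) ^ 2 = 0.2401 * x ^ 2 := by ring
        have h35 := sq_nonneg x
        norm_num at h3 h34 ⊢
        linarith
      have h4 : (1 + 0.75 * x') / D' ≤ 1 / (0.24 * x ^ 2) := by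
        apply div_le_div₀ (by norm_num) _ (by positivity) hx'2
        norm_num at hc hx'0 ⊢
        linarith
      refine h4.trans (le_trans ?_ (hMC hEpos))
      rw [div_le_iff₀ (by positivity)]
      have h5 : (1e-16 : ℝ) ≤ x ^ 2 * x ^ 2 := by
        have := mul_self_le_mul_self (by norm_num) hx2
        norm_num at this ⊢
        linarith
      calc (1 : ℝ) ≤ 5e16 * (0.99 * x ^ 2) * (0.24 * x ^ 2) := by
            have h6 : 5e16 * (0.99 * x ^ 2) * (0.24 * x ^ 2) = 1.188e16 * (x ^ 2 * x ^ 2) := by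
              ring
            rw [h6]
            norm_num at h5 ⊢
            linarith
        _ ≤ 5e16 * E * (0.24 * x ^ 2) := by gcongr
  · have hy := hyb hc
    have hx2 : x ^ 2 ≤ 0.0004 := by
      have h8 := sq_le_sq' (show -(1 / 50) ≤ x by norm_num at hc; linarith) hx
      norm_num at h8 ⊢
      linarith
    have hD1 : D ≤ 0.00041 := by
      rw [hD]
      norm_num at hs2 ⊢
      linarith
    have hy2 : y ^ 2 ≤ 4.85 * D ^ 2 := by
      have h8 := mul_self_le_mul_self hy0 hy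
      have h9 := sq_nonneg D
      norm_num at h8 ⊢
      linarith
    have hE1 : D * (1 - 4.85 * D) ≤ E := by
      rw [hE]
      linarith
    have hE2 : 0.99 * D ≤ E := by
      have h8 : D * 0.99 ≤ D * (1 - 4.85 * D) := by
        apply mul_le_mul_of_nonneg_left _ hDpos.le
        norm_num at hD1 ⊢
        linarith
      linarith
    have hEpos : 0 < E := by
      norm_num at hE2
      linarith
    refine ⟨by rw [hxE]; linarith, ?_⟩
    rcases le_or_gt 1e-4 x with hc2 | hc2
    · -- right part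
      have h1 : D ≤ D' := by
        rw [hD'eq]
        have h8 : 0 ≤ x * E := mul_nonneg (by norm_num at hc2; linarith) hEpos.le
        have h9 := sq_nonneg E
        linarith
      have h4 : (1 + 0.75 * x') / D' ≤ 1.02 / D := by
        apply div_le_div₀ (by norm_num) _ hDpos h1
        rw [hxE]
        linarith
      refine h4.trans (le_trans ?_ (hMC hEpos))
      rw [div_le_iff₀ hDpos]
      have hx3 : 1e-8 ≤ D := by
        rw [hD]
        have h8 := mul_self_le_mul_self (show (0 : ℝ) ≤ 1e-4 by norm_num) hc2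
        norm_num at h8 ⊢
        linarith
      have h5 : (1e-16 : ℝ) ≤ D * D := by
        have := mul_self_le_mul_self (by norm_num) hx3
        norm_num at this ⊢
        linarith
      calc (1.02 : ℝ) ≤ 5e16 * (0.99 * D) * D := by
            have h6 : 5e16 * (0.99 * D) * D = 4.95e16 * (D * D) := by ring
            rw [h6]
            norm_num at h5 ⊢
            linarith
        _ ≤ 5e16 * E * D := by gcongr
    · -- middle part
      have hx3 : x ^ 2 ≤ 1e-8 := by
        have h8 := sq_le_sq' (show -1e-4 ≤ x from hc.le) hc2.le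
        norm_num at h8 ⊢
        linarith
      have hD2 : D ≤ 1.01e-8 := by
        rw [hD]
        norm_num at hs2 hx3 ⊢
        linarith
      have hE3 : D * (1 - 5e-8) ≤ E := by
        refine le_trans ?_ hE1
        apply mul_le_mul_of_nonneg_left _ hDpos.le
        norm_num at hD2 ⊢
        linarith
      have hxE1 : -(1e-4 * D) ≤ x * E := by
        have h1 : 0 ≤ (x + 1e-4) * E := mul_nonneg (by linarith) hEpos.le
        have h2 : 1e-4 * E ≤ 1e-4 * D := mul_le_mul_of_nonneg_left hED (by norm_num)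
        linarith
      have hxE2 : x * E ≤ 1e-4 * D := by
        have h1 : 0 ≤ (1e-4 - x) * E := mul_nonneg (by linarith) hEpos.le
        have h2 : 1e-4 * E ≤ 1e-4 * D := mul_le_mul_of_nonneg_left hED (by norm_num)
        linarith
      have hE4 : E ^ 2 ≤ 1.01e-8 * D := by
        have h1 : E * E ≤ D * D := mul_self_le_mul_self hEpos.le hED
        have h2 : D * D ≤ 1.01e-8 * D := mul_le_mul_of_nonneg_right hD2 hDpos.le
        linarith
      have hDlo : D * (1 - 2e-4) ≤ D' := by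
        rw [hD'eq]
        have h1 := sq_nonneg E
        norm_num at hxE1 ⊢
        linarith
      have hDhi : D' ≤ D * (1 + 2.01e-4) := by
        rw [hD'eq]
        norm_num at hxE2 hE4 ⊢
        linarith
      have hx'1 : x' ≤ 1.01e-4 := by
        rw [hxE]
        norm_num at hD2 hc2 ⊢
        linarith
      obtain ⟨ξ, hξ, hV⟩ := VV_sub hs (show x < x' by linarith)
      have hVE : VV s x' - VV s x = E / (ξ ^ 2 + s ^ 2) ^ 2 := by
        rw [hV, hxE]; ring
      have hξpos : 0 < ξ ^ 2 + s ^ 2 := by positivity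
      have hMV : (1 + 5e-4) * (E / (ξ ^ 2 + s ^ 2) ^ 2) ≤ MM s x' - MM s x := by
        rw [← hVE]
        unfold MM
        have : 0 ≤ x' - x := by linarith
        linarith
      refine le_trans ?_ hMV
      have hξmax : ξ ^ 2 ≤ max (x ^ 2) (x' ^ 2) := by
        rcases le_or_gt 0 ξ with h0 | h0
        · apply le_max_of_le_right
          exact pow_le_pow_left₀ h0 hξ.2.le 2
        · apply le_max_of_le_left
          have h1 := hξ.1
          have h2 := mul_self_le_mul_self (show 0 ≤ -ξ by linarith) (show -ξ ≤ -x by linarith)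
          linarith
      rcases le_or_gt D D' with hc3 | hc3
      · have h6 : ξ ^ 2 + s ^ 2 ≤ D' := by
          rcases max_choice (x ^ 2) (x' ^ 2) with h7 | h7
          · rw [h7] at hξmax
            rw [hD] at hc3
            linarith
          · rw [h7] at hξmax
            rw [hD']
            linarith
        have h8 : E / D' ^ 2 ≤ E / (ξ ^ 2 + s ^ 2) ^ 2 := by gcongr
        refine le_trans ?_ (mul_le_mul_of_nonneg_left h8 (by norm_num))
        rw [div_le_iff₀ hD'pos]
        have h9 : (1 + 5e-4) * (E / D' ^ 2) * D' = (1 + 5e-4) * E / D' := by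
          field_simp
        rw [h9, le_div_iff₀ hD'pos]
        have h10 : (1 + 0.75 * x') * D' ≤ (1 + 0.75 * 1.01e-4) * (D * (1 + 2.01e-4)) := by
          apply mul_le_mul (by linarith) hDhi hD'pos.le (by norm_num)
        refine h10.trans ?_
        norm_num at hE3 ⊢
        linarith
      · have h6 : ξ ^ 2 + s ^ 2 ≤ D := by
          rcases max_choice (x ^ 2) (x' ^ 2) with h7 | h7
          · rw [h7] at hξmax
            rw [hD]
            linarith
          · rw [h7] at hξmax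
            rw [hD'] at hc3
            linarith
        have h8 : E / D ^ 2 ≤ E / (ξ ^ 2 + s ^ 2) ^ 2 := by gcongr
        refine le_trans ?_ (mul_le_mul_of_nonneg_left h8 (by norm_num))
        rw [div_le_iff₀ hD'pos]
        have h11 : 1 + 0.75 * 1.01e-4 ≤ (1 + 5e-4) * (E / D ^ 2) * D' := by
          have h12 : (1 + 5e-4) * (E / D ^ 2) * D' = (1 + 5e-4) * (E * D') / D ^ 2 := by ring
          rw [h12, le_div_iff₀ (by positivity)]
          have h13 : (D * (1 - 5e-8)) * (D * (1 - 2e-4)) ≤ E * D' := by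
            apply mul_le_mul hE3 hDlo _ hEpos.le
            apply mul_nonneg hDpos.le (by norm_num)
          have hDD : 0 < D ^ 2 := by positivity
          have h14 : (D * (1 - 5e-8)) * (D * (1 - 2e-4)) = (1 - 5e-8) * (1 - 2e-4) * D ^ 2 := by
            ring
          rw [h14] at h13
          norm_num at h13 ⊢
          linarith
        linarith

end MPc6f924C
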