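import Mathlib
import Pool.Agent.Work.MP_c6f924_an_cusp.Passage

/-!
# Passage of the critical orbit: induction
-/

namespace MPc6f924C

lemma ybounds {s x y δ : ℝ} (hs : 0 < s) (hs1 : s ≤ 1e-8) (hδ0 : 0 ≤ δ) (hδ : δ ≤ 1.4 * s ^ 3)
    (hx0 : -1 / 2 ≤ x) (hx : x ≤ 0.02041) (hy0 : 0 ≤ y)
    (hP : (1 + 0.75 * x) * y / (x ^ 2 + s ^ 2) ≤ δ * MM s x) :
    (x ≤ -1e-4 → y ≤ 1e-5) ∧ (-1e-4 < x → y ≤ 2.2006 * (x ^ 2 + s ^ 2)) ∧
      (1 / 50 ≤ x → y ≤ 2.17 * x ^ 2) := by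
  have hD : 0 < x ^ 2 + s ^ 2 := by positivity
  have hs2 : s ^ 2 ≤ 1e-16 := by
    calc s ^ 2 ≤ (1e-8) ^ 2 := by gcongr
      _ = 1e-16 := by norm_num
  have hs3 : s ^ 3 ≤ 1e-24 := by
    calc s ^ 3 ≤ (1e-8) ^ 3 := by gcongr
      _ = 1e-24 := by norm_num
  rw [div_le_iff₀ hD] at hP
  have hVV : 0 ≤ VV s x - VV s (-1 / 2) := by
    have := VV_le hs hx0
    linarith
  have hMM : 0 ≤ MM s x := by
    unfold MM
    have h1 : 0 ≤ (1 + 5e-4) * (VV s x - VV s (-1 / 2)) := mul_nonneg (by norm_num) hVV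
    have h2 : (0 : ℝ) ≤ 5e16 * (x + 1 / 2) := mul_nonneg (by norm_num) (by linarith)
    linarith
  have hbig : -1e-4 < x → (1 + 0.75 * x) * y ≤ 2.2003 * (x ^ 2 + s ^ 2) := by
    intro hc
    have h1 := MM_large hs hs1 (show x ≤ 1 / 20 by norm_num at hx ⊢; linarith)
    have h2 : δ * MM s x ≤ 1.4 * s ^ 3 * MM s x := mul_le_mul_of_nonneg_right hδ hMM
    exact hP.trans (mul_le_mul_of_nonneg_right (h2.trans h1) hD.le)
  refine ⟨fun hc => ?_, fun hc => ?_, fun hc => ?_⟩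
  · have h1 := MM_small hs hx0 hc
    have h2 : δ * MM s x ≤ 1.4e-24 * 3.01e16 := by
      apply mul_le_mul _ h1 hMM (by norm_num)
      refine hδ.trans ?_
      norm_num at hs3 ⊢
      linarith
    have h3 : x ^ 2 + s ^ 2 ≤ 0.26 := by
      have : x ^ 2 ≤ 0.25 := by
        have h4 := mul_self_le_mul_self (show 0 ≤ -x by norm_num at hc; linarith)
          (show -x ≤ 1 / 2 by linarith)
        norm_num at h4 ⊢
        linarith
      norm_num at hs2 ⊢
      linarith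
    have h4 : (1 + 0.75 * x) * y ≤ (1.4e-24 * 3.01e16) * 0.26 := by
      refine hP.trans (mul_le_mul h2 h3 hD.le (by norm_num))
    have h5 : 0.625 * y ≤ (1 + 0.75 * x) * y := by
      apply mul_le_mul_of_nonneg_right _ hy0
      linarith
    norm_num at h4 h5 ⊢
    linarith
  · have h1 := hbig hc
    have h5 : 0.999925 * y ≤ (1 + 0.75 * x) * y := by
      apply mul_le_mul_of_nonneg_right _ hy0
      norm_num at hc ⊢
      linarith
    norm_num at h1 h5 ⊢
    linarith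
  · have h1 := hbig (by norm_num; linarith)
    have h5 : 1.015 * y ≤ (1 + 0.75 * x) * y := by
      apply mul_le_mul_of_nonneg_right _ hy0
      linarith
    have h6 : (1 / 50) ^ 2 ≤ x ^ 2 := pow_le_pow_left₀ (by norm_num) hc 2
    norm_num at h1 h5 h6 hs2 ⊢
    linarith

/-- **Passage.** The orbit reaches the exit region. -/
theorem passage {s δ : ℝ} (hs : 0 < s) (hs1 : s ≤ 1e-8) (hδ0 : 0 ≤ δ) (hδ : δ ≤ 1.4 * s ^ 3)
    (x y : ℕ → ℝ) (hx0 : x 0 = -1 / 2) (hy0 : y 0 = 0)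
    (hx : ∀ n, x (n + 1) = x n + (x n ^ 2 + s ^ 2) - y n ^ 2)
    (hy : ∀ n, y (n + 1) = y n * (1 + 2 * x n) + δ) :
    ∃ n, 0.02 ≤ x n ∧ x n ≤ 0.02041 ∧ 0 ≤ y n ∧ y n ≤ 2.17 * x n ^ 2 := by
  have hs2 : s ^ 2 ≤ 1e-16 := by
    calc s ^ 2 ≤ (1e-8) ^ 2 := by gcongr
      _ = 1e-16 := by norm_num
  have key : ∀ n, (∀ m < n, x m < 1 / 50) →
      -1 / 2 + n * (s ^ 2 / 2) ≤ x n ∧ x n ≤ 0.02041 ∧ 0 ≤ y n ∧
      (1 + 0.75 * x n) * y n / (x n ^ 2 + s ^ 2) ≤ δ * MM s (x n) := by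
    intro n
    induction n with
    | zero =>
      intro _
      rw [hx0, hy0]
      refine ⟨by simp, by norm_num, le_refl _, ?_⟩
      norm_num [MM]
    | succ n ih =>
      intro h
      obtain ⟨i1, i2, i3, i4⟩ := ih (fun m hm => h m (by omega))
      have hn : x n ≤ 1 / 50 := (h n (by omega)).le
      have hn0 : -1 / 2 ≤ x n := by
        have : (0 : ℝ) ≤ n * (s ^ 2 / 2) := by positivity
        linarith
      obtain ⟨b1, b2, -⟩ := ybounds hs hs1 hδ0 hδ hn0 i2 i3 i4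
      have hA := stepA hs hs1 hn0 hn i3 (by
        rcases le_or_gt (x n) (-1e-4) with hc | hc
        · exact Or.inl hc
        · exact Or.inr (b2 hc))
      obtain ⟨hB1, hB2⟩ := stepB hs hs1 hn0 hn i3 b1 b2 (hx n)
      have hD : 0 < x n ^ 2 + s ^ 2 := by positivity
      have hD' : 0 < x (n + 1) ^ 2 + s ^ 2 := by positivity
      rw [← hx n] at hA
      refine ⟨?_, ?_, ?_, ?_⟩
      · push_cast
        have : s ^ 2 / 2 ≤ (x n ^ 2 + s ^ 2) / 2 := by
          have := sq_nonneg (x n)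
          linarith
        linarith
      · rw [hx n]
        rcases le_or_gt 0 (x n) with h0 | h0
        · have h1 : x n ^ 2 ≤ (1 / 50) ^ 2 := pow_le_pow_left₀ h0 hn 2
          have h2 := sq_nonneg (y n)
          norm_num at h1 hs2 ⊢
          linarith
        · have h1 : x n * (1 + x n) ≤ 0 :=
            mul_nonpos_of_nonpos_of_nonneg h0.le (by linarith)
          have h2 := sq_nonneg (y n)
          norm_num at hs2 ⊢
          linarith
      · rw [hy n]
        have : 0 ≤ y n * (1 + 2 * x n) := mul_nonneg i3 (by linarith)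
        linarith
      · have e : (1 + 0.75 * x (n + 1)) * y (n + 1) / (x (n + 1) ^ 2 + s ^ 2) =
            ((1 + 0.75 * x (n + 1)) * (1 + 2 * x n) / (x (n + 1) ^ 2 + s ^ 2)) * y n +
              δ * ((1 + 0.75 * x (n + 1)) / (x (n + 1) ^ 2 + s ^ 2)) := by
          rw [hy n]
          ring
        rw [e]
        have h1 : (1 + 0.75 * x (n + 1)) * (1 + 2 * x n) / (x (n + 1) ^ 2 + s ^ 2) ≤
            (1 + 0.75 * x n) / (x n ^ 2 + s ^ 2) := by
          rw [div_le_div_iff₀ hD' hD]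
          linarith
        have h2 : ((1 + 0.75 * x (n + 1)) * (1 + 2 * x n) / (x (n + 1) ^ 2 + s ^ 2)) * y n ≤
            (1 + 0.75 * x n) * y n / (x n ^ 2 + s ^ 2) := by
          refine (mul_le_mul_of_nonneg_right h1 i3).trans (le_of_eq ?_)
          ring
        have h3 := mul_le_mul_of_nonneg_left hB2 hδ0
        linarith
  have hex : ∃ n, 1 / 50 ≤ x n := by
    by_contra hcon
    push Not at hcon
    obtain ⟨n, hn⟩ := exists_nat_gt (1 / (s ^ 2 / 2))
    have h1 := (key n (fun m _ => hcon m)).1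
    have h2 := hcon n
    rw [div_lt_iff₀ (by positivity)] at hn
    linarith
  classical
  have hfirst := Nat.find_spec hex
  have hmin : ∀ m < Nat.find hex, x m < 1 / 50 := by
    intro m hm
    have := Nat.find_min hex hm
    push Not at this
    exact this
  obtain ⟨i1, i2, i3, i4⟩ := key _ hmin
  have hn0 : -1 / 2 ≤ x (Nat.find hex) := by
    have : (0 : ℝ) ≤ (Nat.find hex : ℕ) * (s ^ 2 / 2) := by positivity
    linarith
  obtain ⟨-, -, b3⟩ := ybounds hs hs1 hδ0 hδ hn0 i2 i3 i4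
  refine ⟨Nat.find hex, ?_, i2, i3, b3 hfirst⟩
  norm_num
  linarith

end MPc6f924C
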