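import Mathlib

/-!
# Verified escape of a region under `z ↦ z^2 + 1/4` (arithmetic in `ℕ`)

Complex numbers `z` are stored as `2^40 z + 2^46 (1 + i)`.
-/

namespace MPc6f924C

/-- `f z`, but the kernel evaluates `z` first. -/
def forceN {α : Type} (z : ℕ) (f : ℕ → α) : α :=
  match z with
  | 0 => f 0
  | n + 1 => f (n + 1)

lemma forceN_eq {α : Type} (z : ℕ) (f : ℕ → α) : forceN z f = f z := by
  unfold forceN
  split <;> rfl

/-- `2^40` -/
abbrev SN : ℕ := 1099511627776
/-- offset `2^46` -/
abbrev BN : ℕ := 70368744177664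
/-- `2 * BN * SN` -/
abbrev BSN : ℕ := 154742504910672534362390528
/-- `BN^2` -/
abbrev BBN : ℕ := 4951760157141521099596496896
/-- `2 * BN` -/
abbrev B2N : ℕ := 140737488355328

def newtonN (v m : ℕ) : ℕ :=
  forceN (Nat.div (Nat.add m (Nat.div v m)) 2) fun m1 =>
  forceN (Nat.div (Nat.add m1 (Nat.div v m1)) 2) fun m2 => Nat.add m2 1

def chkN : ℕ → ℕ → ℕ → ℕ → Bool
  | 0, _, _, _ => false
  | n + 1, u, w, r =>
    forceN (Nat.sub (Nat.add (Nat.mul u u) BBN) (Nat.mul B2N u)) fun su =>
    forceN (Nat.sub (Nat.add (Nat.mul w w) BBN) (Nat.mul B2N w)) fun sw =>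
    forceN (Nat.add su sw) fun v =>
    forceN (Nat.add 2199023255552 r) fun t =>
    bif Nat.ble (Nat.add (Nat.mul t t) 1) v then true
    else bif Nat.ble r SN then
      forceN (newtonN v (Nat.div (Nat.add SN (Nat.div v SN)) 2)) fun m =>
      forceN (Nat.add (Nat.mul 2 (Nat.mul u w)) 9903520314283042199192993792) fun c =>
      forceN (Nat.mul B2N (Nat.add u w)) fun d =>
      bif Nat.ble v (Nat.mul m m) && Nat.ble sw (Nat.add su BSN) && Nat.ble d (Nat.add c BSN) then
        forceN (Nat.div (Nat.sub (Nat.add su BSN) sw) SN) fun p =>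
        forceN (Nat.div (Nat.sub (Nat.add c BSN) d) SN) fun q =>
        bif Nat.ble BN p && Nat.ble BN q then
          forceN (Nat.add (Nat.sub p BN) 274877906944) fun u' =>
          forceN (Nat.sub q BN) fun w' =>
          forceN (Nat.add (Nat.div (Nat.mul (Nat.add (Nat.mul 2 m) r) r) SN) 4) fun r' =>
          chkN n u' w' r'
        else false
      else false
    else false

/-- the cell `S (Re z - 1/2) ∈ [a - ha, a + ha]`, `S Im z ∈ [b - hb, b + hb]` contains no point with
`Im z ≤ 2.17 (Re z - 1/2)^2`. -/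
def skipN (a b ha hb : ℕ) : Bool :=
  bif Nat.ble hb b then
    forceN (Nat.add a ha) fun a1 =>
    Nat.ble (Nat.add (Nat.mul 217 (Nat.mul a1 a1)) 1) (Nat.mul 100 (Nat.mul (Nat.sub b hb) SN))
  else false

def radN (ha hb : ℕ) : ℕ :=
  newtonN (Nat.add (Nat.mul ha ha) (Nat.mul hb hb))
    (Nat.add (Nat.div (Nat.mul 3 (Nat.add ha hb)) 4) 1)

def covN : ℕ → ℕ → ℕ → ℕ → ℕ → Bool
  | 0, _, _, _, _ => false
  | n + 1, a, b, ha, hb =>
    bif skipN a b ha hb then true
    else bif Nat.ble n 20 && (forceN (radN ha hb) fun r =>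
      Nat.ble (Nat.add (Nat.mul ha ha) (Nat.mul hb hb)) (Nat.mul r r)
      && chkN 90 (Nat.add (Nat.add BN a) 549755813888) (Nat.add BN b) r)
    then true
    else bif Nat.ble hb ha then
      forceN (Nat.div (Nat.add ha 1) 2) fun h =>
      bif Nat.ble h a then
        forceN (Nat.sub a h) fun a1 => forceN (Nat.add a h) fun a2 =>
        covN n a1 b h hb && covN n a2 b h hb
      else false
    else
      forceN (Nat.div (Nat.add hb 1) 2) fun h =>
      bif Nat.ble h b then
        forceN (Nat.sub b h) fun b1 => forceN (Nat.add b h) fun b2 =>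
        covN n a b1 ha h && covN n a b2 ha h
      else false

set_option maxRecDepth 100000 in
lemma covN_true : covN 25 22215632440 496979260 225399890 496979260 = true := by
  decide +kernel

end MPc6f924C
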