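import Mathlib
import Pool.Agent.Work.MP_c6f924_an_cusp.Box

/-!
# Soundness of the check in `Box`
-/

namespace MPc6f924C

open Complex

/-- the map with parameter `1/4` -/
noncomputable def gz (z : ℂ) : ℂ := z ^ 2 + 1 / 4

/-- scale, as an integer -/
def SC : ℤ := 1099511627776

lemma nat_div (a b : ℕ) : Nat.div a b = a / b := rfl

lemma offs_sq (u : ℕ) : ((u * u + BBN - B2N * u : ℕ) : ℤ) = ((u : ℤ) - BN) * ((u : ℤ) - BN) := by
  have h : B2N * u ≤ u * u + BBN := by
    have h1 : (B2N : ℤ) * u ≤ u * u + BBN := by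
      have := mul_self_nonneg ((u : ℤ) - 70368744177664)
      push_cast
      linarith
    exact_mod_cast h1
  rw [Nat.cast_sub h]
  push_cast
  ring

lemma shift_div (z : ℤ) (n : ℕ) (h : (n : ℤ) = z + 154742504910672534362390528) :
    ((n / SN : ℕ) : ℤ) = z / SC + 140737488355328 := by
  have e : z + 154742504910672534362390528 = z + 140737488355328 * SC := by norm_num [SC]
  have e2 : ((SN : ℕ) : ℤ) = SC := by norm_num [SC]
  rw [Int.natCast_div, h, e, e2, Int.add_mul_ediv_right _ _ (by norm_num [SC])]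

lemma div_bounds (z : ℤ) : 0 ≤ (z : ℝ) / SC - ((z / SC : ℤ) : ℝ) ∧
    (z : ℝ) / SC - ((z / SC : ℤ) : ℝ) ≤ 1 := by
  have hS : (0 : ℝ) < (SC : ℝ) := by norm_num [SC]
  have hS' : (0 : ℤ) < SC := by norm_num [SC]
  have h1 : SC * (z / SC) ≤ z := Int.mul_ediv_self_le hS'.ne'
  have h2 : z < SC * (z / SC) + SC := Int.lt_mul_ediv_self_add hS'
  have h1' : (SC : ℝ) * ((z / SC : ℤ) : ℝ) ≤ z := by exact_mod_cast h1
  have h2' : (z : ℝ) < (SC : ℝ) * ((z / SC : ℤ) : ℝ) + SC := by exact_mod_cast h2
  constructor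
  · rw [sub_nonneg, le_div_iff₀ hS]; linarith
  · rw [sub_le_iff_le_add, div_le_iff₀ hS]; nlinarith

lemma step_sound {re im r m : ℤ} {x : ℂ}
    (hx : ‖(SC : ℂ) * x - ((re : ℂ) + (im : ℂ) * I)‖ ≤ r)
    (hm : re * re + im * im ≤ m * m) (hm0 : 0 ≤ m) :
    ‖(SC : ℂ) * gz x - ((((re * re - im * im) / SC + 274877906944 : ℤ) : ℂ)
      + (((2 * (re * im)) / SC : ℤ) : ℂ) * I)‖
      ≤ ((((2 * m + r) * r) / SC + 4 : ℤ) : ℝ) := by
  have hS : (0 : ℝ) < (SC : ℝ) := by norm_num [SC]
  have hSc : (SC : ℂ) ≠ 0 := by norm_num [SC]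
  have hS4 : (SC : ℂ) = 4 * 274877906944 := by norm_num [SC]
  have hr : (0 : ℝ) ≤ r := (norm_nonneg _).trans hx
  set c : ℂ := (re : ℂ) + (im : ℂ) * I with hc
  set δ : ℂ := (SC : ℂ) * x - c with hδ
  have hxe : x = (c + δ) / SC := by rw [hδ]; field_simp; ring
  obtain ⟨a1, a2⟩ := div_bounds (re * re - im * im)
  obtain ⟨b1, b2⟩ := div_bounds (2 * (re * im))
  obtain ⟨-, c2⟩ := div_bounds ((2 * m + r) * r)
  set f1 : ℝ := ((re * re - im * im : ℤ) : ℝ) / SC - (((re * re - im * im) / SC : ℤ) : ℝ) with hf1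
  set f2 : ℝ := ((2 * (re * im) : ℤ) : ℝ) / SC - (((2 * (re * im)) / SC : ℤ) : ℝ) with hf2
  have key : (SC : ℂ) * gz x - ((((re * re - im * im) / SC + 274877906944 : ℤ) : ℂ)
      + (((2 * (re * im)) / SC : ℤ) : ℂ) * I)
      = ((f1 : ℂ) + (f2 : ℂ) * I) + 2 * c * δ / SC + δ ^ 2 / SC := by
    have e1 : (f1 : ℂ) = ((re : ℂ) * re - im * im) / SC - (((re * re - im * im) / SC : ℤ) : ℂ) := by
      rw [hf1]; push_cast; ring
    have e2 : (f2 : ℂ) = (2 * ((re : ℂ) * im)) / SC - (((2 * (re * im)) / SC : ℤ) : ℂ) := by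
      rw [hf2]; push_cast; ring
    rw [e1, e2, gz, hxe]
    push_cast
    have e3 : c ^ 2 = ((re : ℂ) * re - im * im) + 2 * (re * im) * I := by
      rw [hc]
      linear_combination ((im : ℂ) ^ 2) * I_sq
    field_simp
    linear_combination 4 * e3 + (SC : ℂ) * hS4
  rw [key]
  have n1 : ‖(f1 : ℂ) + (f2 : ℂ) * I‖ ≤ 2 := by
    refine (norm_add_le _ _).trans ?_
    rw [norm_mul, norm_I, mul_one, norm_real, norm_real, Real.norm_of_nonneg a1,
      Real.norm_of_nonneg b1]
    linarith
  have hm0' : (0 : ℝ) ≤ m := by exact_mod_cast hm0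
  have n2 : ‖c‖ ≤ m := by
    have hm' : (re : ℝ) * re + im * im ≤ m * m := by
      exact_mod_cast hm
    have e : ‖c‖ ^ 2 = (re : ℝ) * re + im * im := by
      rw [← normSq_eq_norm_sq, normSq_apply]
      have r1 : c.re = re := by
        simp [hc]
      have r2 : c.im = im := by
        simp [hc]
      rw [r1, r2]
    have := norm_nonneg c
    nlinarith
  have hSn : ‖(SC : ℂ)‖ = (SC : ℝ) := by
    rw [norm_intCast, abs_of_pos hS]
  have n3 : ‖2 * c * δ / SC‖ ≤ (2 * m * r : ℝ) / SC := by
    rw [norm_div, norm_mul, norm_mul, hSn, Complex.norm_ofNat]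
    gcongr
  have n4 : ‖δ ^ 2 / SC‖ ≤ (r * r : ℝ) / SC := by
    rw [norm_div, norm_pow, hSn, pow_two]
    gcongr
  refine (norm_add₃_le).trans ?_
  have e5 : ((((2 * m + r) * r : ℤ) : ℝ)) / SC = (2 * m * r : ℝ) / SC + (r * r : ℝ) / SC := by
    push_cast
    ring
  rw [e5] at c2
  push_cast at c2 ⊢
  linarith

lemma chkN_sound (n : ℕ) : ∀ (u w r : ℕ) (x : ℂ), chkN n u w r = true →
    ‖(SC : ℂ) * x - ((((u : ℤ) - BN : ℤ) : ℂ) + (((w : ℤ) - BN : ℤ) : ℂ) * I)‖ ≤ r →
    ∃ k, 2 < ‖gz^[k] x‖ := by
  induction n with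
  | zero => intro u w r x h; simp [chkN] at h
  | succ n ih =>
    intro u w r x h hx
    have hS : (0 : ℝ) < (SC : ℝ) := by norm_num [SC]
    rw [chkN] at h
    simp only [forceN_eq, Nat.add_eq, Nat.sub_eq, Nat.mul_eq, nat_div] at h
    set re : ℤ := (u : ℤ) - BN with hre
    set im : ℤ := (w : ℤ) - BN with him
    set su : ℕ := u * u + BBN - B2N * u with hsu
    set sw : ℕ := w * w + BBN - B2N * w with hsw
    have esu : (su : ℤ) = re * re := offs_sq u
    have esw : (sw : ℤ) = im * im := offs_sq w
    cases h1 : Nat.ble ((2199023255552 + r) * (2199023255552 + r) + 1) (su + sw) with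
    | true =>
      have h2 := Nat.le_of_ble_eq_true h1
      refine ⟨0, ?_⟩
      simp only [Function.iterate_zero, id_eq]
      have h3' : (2 * SC + r) * (2 * SC + r) + 1 ≤ re * re + im * im := by
        rw [← esu, ← esw]
        have : ((2199023255552 + (r : ℤ)) * (2199023255552 + r) + 1) ≤ su + sw := by
          exact_mod_cast h2
        simp only [SC]
        linarith
      have h3 : (2 * (SC : ℝ) + r) * (2 * SC + r) + 1 ≤ re * re + im * im := by exact_mod_cast h3'
      set c : ℂ := (re : ℂ) + (im : ℂ) * I with hc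
      have e : ‖c‖ ^ 2 = (re : ℝ) * re + im * im := by
        rw [← normSq_eq_norm_sq, normSq_apply]
        simp [hc]
      have hr : (0 : ℝ) ≤ r := Nat.cast_nonneg _
      have h4 : 2 * (SC : ℝ) + r < ‖c‖ := by
        have := norm_nonneg c
        nlinarith
      have h5 : ‖c‖ ≤ ‖(SC : ℂ) * x‖ + r := by
        have : c = (SC : ℂ) * x - ((SC : ℂ) * x - c) := by ring
        calc ‖c‖ = ‖(SC : ℂ) * x - ((SC : ℂ) * x - c)‖ := by rw [← this]
          _ ≤ _ := (norm_sub_le _ _).trans (by gcongr)
      rw [norm_mul, norm_intCast, abs_of_pos hS] at h5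
      nlinarith
    | false =>
      rw [h1, cond_false] at h
      cases h2 : Nat.ble r SN with
      | false => rw [h2, cond_false] at h; simp at h
      | true =>
        rw [h2, cond_true] at h
        set v : ℕ := su + sw with hv
        set m : ℕ := newtonN v ((SN + v / SN) / 2) with hm
        set c : ℕ := 2 * (u * w) + 9903520314283042199192993792 with hc
        set d : ℕ := B2N * (u + w) with hd
        cases h3 : (Nat.ble v (m * m) && Nat.ble sw (su + BSN) && Nat.ble d (c + BSN)) with
        | false => rw [h3, cond_false] at h; simp at h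
        | true =>
          rw [h3, cond_true] at h
          set p : ℕ := (su + BSN - sw) / SN with hp
          set q : ℕ := (c + BSN - d) / SN with hq
          rw [Bool.and_eq_true, Bool.and_eq_true] at h3
          cases h4 : (Nat.ble BN p && Nat.ble BN q) with
          | false => rw [h4, cond_false] at h; simp at h
          | true =>
            rw [h4, cond_true] at h
            rw [Bool.and_eq_true] at h4
            have g1 := Nat.le_of_ble_eq_true h3.1.1
            have g2 := Nat.le_of_ble_eq_true h3.1.2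
            have g3 := Nat.le_of_ble_eq_true h3.2
            have g4 := Nat.le_of_ble_eq_true h4.1
            have g5 := Nat.le_of_ble_eq_true h4.2
            have gm : re * re + im * im ≤ (m : ℤ) * m := by
              rw [← esu, ← esw]; exact_mod_cast g1
            have hx' : ‖(SC : ℂ) * x - ((re : ℂ) + (im : ℂ) * I)‖ ≤ (((r : ℕ) : ℤ) : ℝ) := by
              simpa using hx
            have key := step_sound hx' gm (Nat.cast_nonneg m)
            have ep : (p : ℤ) = (re * re - im * im) / SC + 140737488355328 := by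
              rw [hp]
              apply shift_div
              rw [Nat.cast_sub g2, Nat.cast_add, esu, esw]
              push_cast
              ring
            have eq : (q : ℤ) = (2 * (re * im)) / SC + 140737488355328 := by
              rw [hq]
              apply shift_div
              rw [Nat.cast_sub g3, Nat.cast_add, hc, hd, hre, him]
              push_cast
              ring
            have eu : (((p - BN + 274877906944 : ℕ) : ℤ) - BN : ℤ) =
                (re * re - im * im) / SC + 274877906944 := by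
              rw [Nat.cast_add, Nat.cast_sub g4, ep]
              push_cast
              ring
            have ew : (((q - BN : ℕ) : ℤ) - BN : ℤ) = (2 * (re * im)) / SC := by
              rw [Nat.cast_sub g5, eq]
              push_cast
              ring
            have er : ((((2 * m + r) * r / SN + 4 : ℕ) : ℤ)) = ((2 * (m : ℤ) + r) * r) / SC + 4 := by
              have e2 : ((SN : ℕ) : ℤ) = SC := by norm_num [SC]
              rw [Nat.cast_add, Int.natCast_div, e2]
              push_cast
              ring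
            obtain ⟨k, hk⟩ := ih _ _ _ (gz x) h (by
              rw [eu, ew]
              have e3 : (((2 * m + r) * r / SN + 4 : ℕ) : ℝ)
                  = (((2 * (m : ℤ) + r) * r) / SC + 4 : ℤ) := by
                rw [← er]; exact (Int.cast_natCast _).symm
              rw [e3]
              exact key)
            exact ⟨k + 1, by rwa [Function.iterate_succ_apply]⟩

/-- real form of the skip test; `α = S (Re z - 1/2)`, `β = S Im z`. -/
lemma skipN_sound {a b ha hb : ℕ} {α β : ℝ} (h : skipN a b ha hb = true) (h1 : 0 ≤ α)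
    (h2 : α ≤ a + ha) (h3 : (b : ℝ) - hb ≤ β) (h5 : 100 * (β * SC) ≤ 217 * α ^ 2) : False := by
  have hS : (0 : ℝ) < (SC : ℝ) := by norm_num [SC]
  have hSN : ((SN : ℕ) : ℝ) = SC := by norm_num [SC]
  rw [skipN] at h
  simp only [forceN_eq, Nat.add_eq, Nat.sub_eq, Nat.mul_eq] at h
  cases c1 : (Nat.ble hb b) with
  | false => rw [c1, cond_false] at h; simp at h
  | true =>
    rw [c1, cond_true] at h
    have g2 := Nat.le_of_ble_eq_true c1
    have g4 := Nat.le_of_ble_eq_true h
    have g4' : (217 * (((a : ℝ) + ha) * (a + ha)) + 1) ≤ 100 * (((b : ℝ) - hb) * SC) := by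
      rw [← hSN, ← Nat.cast_sub g2]
      exact_mod_cast g4
    have m1 : ((b : ℝ) - hb) * SC ≤ β * SC := by gcongr
    have m2 : α ^ 2 ≤ (((a : ℝ) + ha) * (a + ha)) := by nlinarith
    linarith

lemma covN_sound (n : ℕ) : ∀ (a b ha hb : ℕ) (x : ℂ), covN n a b ha hb = true →
    |(SC : ℝ) * (x.re - 1 / 2) - a| ≤ ha → |(SC : ℝ) * x.im - b| ≤ hb →
    1 / 2 ≤ x.re → x.im ≤ 2.17 * (x.re - 1 / 2) ^ 2 →
    ∃ k, 2 < ‖gz^[k] x‖ := by
  induction n with
  | zero => intro a b ha hb x h; simp [covN] at h
  | succ n ih =>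
    intro a b ha hb x h hxa hxb h5 h6
    have hS : (0 : ℝ) < (SC : ℝ) := by norm_num [SC]
    rw [covN] at h
    simp only [forceN_eq, Nat.add_eq, Nat.sub_eq, Nat.mul_eq, nat_div] at h
    have hhalf : ∀ z : ℕ, (z : ℝ) ≤ 2 * (((z + 1) / 2 : ℕ) : ℝ) := by
      intro z
      have : z ≤ 2 * ((z + 1) / 2) := by omega
      exact_mod_cast this
    rw [abs_le] at hxa hxb
    cases h0 : skipN a b ha hb with
    | true =>
      exfalso
      refine skipN_sound (α := (SC : ℝ) * (x.re - 1 / 2)) (β := (SC : ℝ) * x.im) h0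
        (mul_nonneg hS.le (by linarith)) (by linarith [hxa.2]) (by linarith [hxb.1]) ?_
      have := mul_le_mul_of_nonneg_left h6 (pow_nonneg hS.le 2)
      norm_num at this
      linarith
    | false =>
      rw [h0, cond_false] at h
      cases h1 : (Nat.ble n 20 && (Nat.ble (ha * ha + hb * hb) (radN ha hb * radN ha hb)
        && chkN 90 (BN + a + 549755813888) (BN + b) (radN ha hb))) with
      | true =>
        rw [Bool.and_eq_true, Bool.and_eq_true] at h1
        obtain ⟨-, h2, h4⟩ := h1
        apply chkN_sound 90 _ _ (radN ha hb) x h4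
        have h2' : (ha : ℝ) * ha + hb * hb ≤ radN ha hb * radN ha hb := by
          exact_mod_cast Nat.le_of_ble_eq_true h2
        have e1 : (((BN + a + 549755813888 : ℕ) : ℤ) - BN : ℤ) = (a : ℤ) + 549755813888 := by
          push_cast; ring
        have e2 : (((BN + b : ℕ) : ℤ) - BN : ℤ) = (b : ℤ) := by
          rw [Nat.cast_add]; ring
        rw [e1, e2]
        have e : ‖(SC : ℂ) * x - ((((a : ℤ) + 549755813888 : ℤ) : ℂ) + (((b : ℤ) : ℤ) : ℂ) * I)‖ ^ 2
            = ((SC : ℝ) * (x.re - 1 / 2) - a) ^ 2 + ((SC : ℝ) * x.im - b) ^ 2 := by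
          rw [← normSq_eq_norm_sq, normSq_apply]
          have r1 : ((SC : ℂ) * x - ((((a : ℤ) + 549755813888 : ℤ) : ℂ)
              + (((b : ℤ) : ℤ) : ℂ) * I)).re = (SC : ℝ) * (x.re - 1 / 2) - a := by
            simp [SC]
            ring
          have r2 : ((SC : ℂ) * x - ((((a : ℤ) + 549755813888 : ℤ) : ℂ)
              + (((b : ℤ) : ℤ) : ℂ) * I)).im = (SC : ℝ) * x.im - b := by
            simp
          rw [r1, r2]; ring
        have q1 : ((SC : ℝ) * (x.re - 1 / 2) - a) ^ 2 ≤ (ha : ℝ) ^ 2 := sq_le_sq' hxa.1 hxa.2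
        have q2 : ((SC : ℝ) * x.im - b) ^ 2 ≤ (hb : ℝ) ^ 2 := sq_le_sq' hxb.1 hxb.2
        apply le_of_sq_le_sq _ (Nat.cast_nonneg _)
        rw [e]
        generalize radN ha hb = R at h2'
        have e6 : ((R : ℕ) : ℝ) ^ 2 = R * R := by ring
        linarith
      | false =>
        rw [h1, cond_false] at h
        cases h2 : Nat.ble hb ha with
        | true =>
          rw [h2, cond_true] at h
          cases h7 : Nat.ble ((ha + 1) / 2) a with
          | false => rw [h7, cond_false] at h; simp at h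
          | true =>
            rw [h7, cond_true, Bool.and_eq_true] at h
            have h8 := Nat.le_of_ble_eq_true h7
            have hh := hhalf ha
            rcases le_total ((SC : ℝ) * (x.re - 1 / 2)) a with h3 | h3
            · apply ih _ _ _ _ x h.1 _ (abs_le.mpr hxb) h5 h6
              rw [Nat.cast_sub h8, abs_le]
              constructor <;> linarith [hxa.1, hxa.2]
            · apply ih _ _ _ _ x h.2 _ (abs_le.mpr hxb) h5 h6
              rw [Nat.cast_add, abs_le]
              constructor <;> linarith [hxa.1, hxa.2]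
        | false =>
          rw [h2, cond_false] at h
          cases h7 : Nat.ble ((hb + 1) / 2) b with
          | false => rw [h7, cond_false] at h; simp at h
          | true =>
            rw [h7, cond_true, Bool.and_eq_true] at h
            have h8 := Nat.le_of_ble_eq_true h7
            have hh := hhalf hb
            rcases le_total ((SC : ℝ) * x.im) b with h3 | h3
            · apply ih _ _ _ _ x h.1 (abs_le.mpr hxa) _ h5 h6
              rw [Nat.cast_sub h8, abs_le]
              constructor <;> linarith [hxb.1, hxb.2]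
            · apply ih _ _ _ _ x h.2 (abs_le.mpr hxa) _ h5 h6
              rw [Nat.cast_add, abs_le]
              constructor <;> linarith [hxb.1, hxb.2]

/-- All points of the region escape. -/
lemma region_escape {x : ℂ} (h1 : 0.52 ≤ x.re) (h2 : x.re ≤ 0.52041) (h3 : 0 ≤ x.im)
    (h5 : x.im ≤ 2.17 * (x.re - 1 / 2) ^ 2) :
    ∃ k, 2 < ‖gz^[k] x‖ := by
  have h4 : x.im ≤ 0.000904 := by
    norm_num at h1 h2 h5 ⊢
    nlinarith
  refine covN_sound _ _ _ _ _ x covN_true ?_ ?_ (by norm_num at h1 ⊢; linarith) h5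
  · rw [abs_le]
    constructor
    · norm_num [SC]; norm_num at h1 h2; linarith
    · norm_num [SC]; norm_num at h1 h2; linarith
  · rw [abs_le]
    constructor
    · norm_num [SC]; norm_num at h3 h4; linarith
    · norm_num [SC]; norm_num at h3 h4; linarith

end MPc6f924C
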