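import Mathlib
import Pool.Agent.Work.MP_c6f924_an.Defs
import Pool.Agent.Work.MP_c6f924_an_cusp.Sound
import Pool.Agent.Work.MP_c6f924_an_cusp.Passage2

/-!
# The Mandelbrot set near its cusp
-/

namespace MPc6f924C

open Complex Set Filter Topology N62a1eb23 MPc6f924

/-- the exit region -/
def KK : Set ℂ := {z | 0.52 ≤ z.re ∧ z.re ≤ 0.52041 ∧ 0 ≤ z.im ∧ z.im ≤ 2.17 * (z.re - 1 / 2) ^ 2}

lemma isCompact_KK : IsCompact KK := by
  apply Metric.isCompact_of_isClosed_isBounded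
  · have h1 : IsClosed {z : ℂ | 0.52 ≤ z.re} := isClosed_le continuous_const continuous_re
    have h2 : IsClosed {z : ℂ | z.re ≤ 0.52041} := isClosed_le continuous_re continuous_const
    have h3 : IsClosed {z : ℂ | 0 ≤ z.im} := isClosed_le continuous_const continuous_im
    have h4 : IsClosed {z : ℂ | z.im ≤ 2.17 * (z.re - 1 / 2) ^ 2} :=
      isClosed_le continuous_im (by fun_prop)
    have e : KK = {z : ℂ | 0.52 ≤ z.re} ∩ ({z : ℂ | z.re ≤ 0.52041} ∩ ({z : ℂ | 0 ≤ z.im} ∩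
        {z : ℂ | z.im ≤ 2.17 * (z.re - 1 / 2) ^ 2})) := by
      ext z
      simp [KK]
    rw [e]
    exact h1.inter (h2.inter (h3.inter h4))
  · apply (Metric.isBounded_closedBall (x := (0 : ℂ)) (r := 2)).subset
    intro z hz
    obtain ⟨h1, h2, h3, h4⟩ := hz
    rw [Metric.mem_closedBall, dist_zero_right]
    refine (norm_le_abs_re_add_abs_im z).trans ?_
    rw [abs_of_nonneg h3, abs_of_nonneg (by norm_num at h1; linarith)]
    have h5 : z.im ≤ 1 := by
      norm_num at h1 h2 h4 ⊢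
      nlinarith
    norm_num at h2 ⊢
    linarith

lemma escape_near : ∃ ε : ℝ, 0 < ε ∧ ∀ c : ℂ, ‖c - 1 / 4‖ < ε → ∀ z ∈ KK,
    ∃ k, 2 < ‖(fun w : ℂ => w ^ 2 + c)^[k] z‖ := by
  have h1 : ∀ᶠ c in 𝓝 (1 / 4 : ℂ), ∀ z ∈ KK, ∃ k, 2 < ‖(fun w : ℂ => w ^ 2 + c)^[k] z‖ := by
    apply isCompact_KK.eventually_forall_of_forall_eventually
    intro z hz
    obtain ⟨k, hk⟩ := region_escape hz.1 hz.2.1 hz.2.2.1 hz.2.2.2
    have hcont : Continuous (fun p : ℂ × ℂ => ‖(fun w : ℂ => w ^ 2 + p.1)^[k] p.2‖) := by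
      apply Continuous.norm
      clear hk
      induction k with
      | zero => exact continuous_snd
      | succ n ih =>
        have e : (fun p : ℂ × ℂ => (fun w : ℂ => w ^ 2 + p.1)^[n + 1] p.2) =
            fun p : ℂ × ℂ => ((fun w : ℂ => w ^ 2 + p.1)^[n] p.2) ^ 2 + p.1 := by
          funext p
          rw [Function.iterate_succ_apply']
        rw [e]
        exact (ih.pow 2).add continuous_fst
    have hlt : ∀ᶠ p in 𝓝 ((1 / 4 : ℂ), z), 2 < ‖(fun w : ℂ => w ^ 2 + p.1)^[k] p.2‖ :=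
      hcont.continuousAt.eventually (lt_mem_nhds (by exact hk))
    filter_upwards [hlt] with p hp
    exact ⟨k, hp⟩
  rw [Metric.eventually_nhds_iff] at h1
  obtain ⟨ε, hε, h2⟩ := h1
  refine ⟨ε, hε, fun c hc => ?_⟩
  apply h2
  rwa [dist_eq_norm]

lemma crit_add (c : ℂ) (n k : ℕ) :
    crit c (n + k) = (fun w : ℂ => w ^ 2 + c)^[k] (crit c n) := by
  rw [crit, add_comm, Function.iterate_add_apply]
  rfl

lemma crit_conj' (c : ℂ) (n : ℕ) : crit (starRingEnd ℂ c) n = starRingEnd ℂ (crit c n) := by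
  induction n with
  | zero => simp
  | succ n ih => rw [crit_succ, crit_succ, ih]; simp

lemma mem_conj' {c : ℂ} (hc : c ∈ mandelbrotSet) : starRingEnd ℂ c ∈ mandelbrotSet :=
  mem_of_bounded (B := 2) fun k => by
    rw [crit_conj', norm_conj]; exact norm_crit_le_two hc k

lemma main_upper {ε : ℝ}
    (h : ∀ c : ℂ, ‖c - 1 / 4‖ < ε → ∀ z ∈ KK, ∃ k, 2 < ‖(fun w : ℂ => w ^ 2 + c)^[k] z‖)
    {c : ℂ} (hc : c ∈ mandelbrotSet) {s : ℝ} (hs : 0 < s) (hs1 : s ≤ 1e-8)
    (hs2 : 2 * s ^ 2 < ε) (hre : c.re = 1 / 4 + s ^ 2) (him : 0 ≤ c.im)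
    (him' : c.im ≤ 1.4 * s ^ 3) : False := by
  have hcn : ‖c - 1 / 4‖ < ε := by
    refine lt_of_le_of_lt (norm_le_abs_re_add_abs_im _) ?_
    have e1 : (c - 1 / 4).re = s ^ 2 := by
      rw [sub_re, hre]
      norm_num
    have e2 : (c - 1 / 4).im = c.im := by
      rw [sub_im]
      norm_num
    rw [e1, e2, abs_of_nonneg (by positivity), abs_of_nonneg him]
    have h3 : s ^ 3 ≤ 1e-8 * s ^ 2 := by
      have : s ^ 3 = s * s ^ 2 := by ring
      rw [this]
      exact mul_le_mul_of_nonneg_right hs1 (by positivity)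
    have h4 : 0 < s ^ 2 := by positivity
    norm_num at h3 him'
    linarith
  obtain ⟨n, h1, h2, h3, h4⟩ := passage hs hs1 him him' (fun n => (crit c n).re - 1 / 2)
    (fun n => (crit c n).im) (by simp; norm_num) (by simp) (by
      intro n
      simp only [crit_succ, add_re, hre, pow_two, mul_re]
      ring) (by
      intro n
      simp only [crit_succ, add_im, pow_two, mul_im]
      ring)
  have hK : crit c n ∈ KK := by
    refine ⟨?_, ?_, h3, h4⟩
    · norm_num at h1 ⊢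
      linarith
    · norm_num at h2 ⊢
      linarith
  obtain ⟨k, hk⟩ := h c hcn _ hK
  rw [← crit_add] at hk
  exact absurd (norm_crit_le_two hc (n + k)) (not_le.mpr hk)

/-- **Horn at the cusp.** Near `1/4` the Mandelbrot set stays away from the real axis. -/
theorem cuspHorn : ∃ h₀ : ℝ, 0 < h₀ ∧ ∀ c ∈ mandelbrotSet, 1 / 4 < c.re → c.re < 1 / 4 + h₀ →
    49 * (c.re - 1 / 4) ^ 3 < 25 * c.im ^ 2 := by
  obtain ⟨ε, hε, h⟩ := escape_near
  refine ⟨min (1e-16) (ε / 2), lt_min (by norm_num) (by linarith), ?_⟩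
  intro c hc h1 h2
  by_contra hcon
  push Not at hcon
  obtain ⟨s, hs, hs2⟩ : ∃ s : ℝ, 0 < s ∧ s ^ 2 = c.re - 1 / 4 :=
    ⟨Real.sqrt (c.re - 1 / 4), Real.sqrt_pos.mpr (by linarith), Real.sq_sqrt (by linarith)⟩
  have h3 : s ^ 2 < 1e-16 := by
    have := min_le_left (1e-16 : ℝ) (ε / 2)
    linarith
  have h4 : 2 * s ^ 2 < ε := by
    have := min_le_right (1e-16 : ℝ) (ε / 2)
    linarith
  have hs1 : s ≤ 1e-8 := by
    by_contra h5
    push Not at h5
    have := mul_self_lt_mul_self (by norm_num) h5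
    norm_num at this h3
    nlinarith
  have h5 : 25 * c.im ^ 2 ≤ 49 * s ^ 6 := by
    have : s ^ 6 = (s ^ 2) ^ 3 := by ring
    rw [this, hs2]
    exact hcon
  have h6 : |c.im| ≤ 1.4 * s ^ 3 := by
    apply abs_le_of_sq_le_sq _ (by positivity)
    norm_num
    nlinarith
  rcases le_total 0 c.im with h7 | h7
  · rw [abs_of_nonneg h7] at h6
    exact main_upper h hc hs hs1 h4 (by linarith) h7 h6
  · rw [abs_of_nonpos h7] at h6
    refine main_upper h (mem_conj' hc) hs hs1 h4 ?_ ?_ ?_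
    · rw [conj_re]
      linarith
    · rw [conj_im]
      linarith
    · rw [conj_im]
      exact h6

end MPc6f924C
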